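import Pool.Agent.N790.CM.C

/-!
# Sparse sets of exceptional integers and the multiples of Carmichael's function
-/

set_option autoImplicit false

namespace Pool.Agent.N628.CMI

open Finset
open Pool.Agent.N790.CM (FewTimes Carries scale)

/-- the exceptional `w` at the scale `N` -/
def Bad (Q : ℤ → Prop) (κ : ℝ) (N H : ℕ) : Set ℕ :=
  {w | ∃ t a h : ℤ, (|t| ≤ H ∧ ¬ Q t) ∧ 1 ≤ a ∧ (a : ℝ) ≤ (N : ℝ) ^ κ ∧ |(h : ℝ)| ≤ (N : ℝ) ^ κ ∧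
    t = a * w + h}

open Classical in
/-- the number of exceptional `w` -/
theorem bad_count (Q : ℤ → Prop) {κ x : ℝ} (hκ : 0 ≤ κ) {N H : ℕ} (hN : 1 ≤ N)
    (hx : ({t : ℤ | |t| ≤ H ∧ ¬ Q t}.ncard : ℝ) ≤ x) (R : ℕ) :
    (((Icc 1 R).filter (fun w => w ∈ Bad Q κ N H)).card : ℝ) ≤ x * (3 * (N : ℝ) ^ (2 * κ)) := by
  have hN1 : (1 : ℝ) ≤ N := by exact_mod_cast hN
  have hN0 : (0 : ℝ) < N := by linarith
  have hfin : {t : ℤ | |t| ≤ H ∧ ¬ Q t}.Finite :=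
    (Set.finite_Icc (-(H : ℤ)) H).subset fun t ht => abs_le.1 ht.1
  set E : Finset ℤ := hfin.toFinset with hE
  have hEcard : (E.card : ℝ) ≤ x := by
    rw [Set.ncard_eq_toFinset_card _ hfin] at hx
    exact hx
  set Y : ℝ := (N : ℝ) ^ κ with hY
  have hY1 : 1 ≤ Y := Real.one_le_rpow hN1 hκ
  set S : Finset (ℤ × ℤ × ℤ) := E ×ˢ (Icc (1 : ℤ) ⌊Y⌋ ×ˢ Icc (-⌊Y⌋) ⌊Y⌋) with hS
  have hsub : (Icc 1 R).filter (fun w => w ∈ Bad Q κ N H) ⊆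
      S.image (fun x : ℤ × ℤ × ℤ => ((x.1 - x.2.2) / x.2.1).toNat) := by
    intro w hw
    rw [mem_filter] at hw
    obtain ⟨-, t, a, h, ht, ha1, ha2, hh, hnw⟩ := hw
    rw [mem_image]
    refine ⟨(t, a, h), ?_, ?_⟩
    · rw [hS, mem_product, mem_product, mem_Icc, mem_Icc]
      refine ⟨?_, ⟨ha1, Int.le_floor.2 ha2⟩, ?_, ?_⟩
      · rw [hE, Set.Finite.mem_toFinset]
        exact ht
      · have := (abs_le.1 hh).1
        have h2 : ((-h : ℤ) : ℝ) ≤ Y := by push_cast; linarith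
        have h3 := Int.le_floor.2 h2
        show -⌊Y⌋ ≤ h
        omega
      · exact Int.le_floor.2 (abs_le.1 hh).2
    · show ((t - h) / a).toNat = w
      have h1 : t - h = a * w := by rw [hnw]; ring
      rw [h1, Int.mul_ediv_cancel_left _ (by omega)]
      exact Int.toNat_natCast w
  have hYf : (⌊Y⌋ : ℝ) ≤ Y := Int.floor_le Y
  have hYf0 : 0 ≤ ⌊Y⌋ := Int.floor_nonneg.2 (by linarith)
  have hc1 : ((Icc (1 : ℤ) ⌊Y⌋).card : ℝ) ≤ Y := by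
    rw [Int.card_Icc]
    have : ((⌊Y⌋ + 1 - 1).toNat : ℤ) = ⌊Y⌋ := by omega
    have h2 : (((⌊Y⌋ + 1 - 1).toNat : ℕ) : ℝ) = (⌊Y⌋ : ℝ) := by exact_mod_cast this
    rw [h2]
    exact hYf
  have hc2 : ((Icc (-⌊Y⌋) ⌊Y⌋).card : ℝ) ≤ 3 * Y := by
    rw [Int.card_Icc]
    have : ((⌊Y⌋ + 1 - -⌊Y⌋).toNat : ℤ) = 2 * ⌊Y⌋ + 1 := by omega
    have h2 : (((⌊Y⌋ + 1 - -⌊Y⌋).toNat : ℕ) : ℝ) = 2 * (⌊Y⌋ : ℝ) + 1 := by exact_mod_cast this
    rw [h2]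
    linarith
  have hx0 : 0 ≤ x := le_trans (Nat.cast_nonneg _) hx
  have hScard : (S.card : ℝ) ≤ x * (Y * (3 * Y)) := by
    rw [hS, card_product, card_product]
    push_cast
    exact mul_le_mul hEcard (mul_le_mul hc1 hc2 (by positivity) (by linarith)) (by positivity) hx0
  have h1 : (((Icc 1 R).filter (fun w => w ∈ Bad Q κ N H)).card : ℝ) ≤ S.card := by
    exact_mod_cast (card_le_card hsub).trans card_image_le
  refine h1.trans (hScard.trans (le_of_eq ?_))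
  have h2 : (N : ℝ) ^ (2 * κ) = Y * Y := by
    rw [hY, ← Real.rpow_add hN0]
    congr 1
    ring
  rw [h2]
  ring

/-- **Sparse exceptions.** If `Q_X(t)` fails for at most `C X^ε` integers `|t| ≤ X`, where `ε = (1 - 2κ) / (2(B + 1))`, then for
all `m ≤ N` but `N / (log N)^U`: for EVERY common multiple `w ≤ N^B` of the `f(p)` and ALL `t` near multiples of `w` one has
`Q_X(t)`, `X = ⌊N^(B + 1)⌋`. -/
theorem near (Q : ℕ → ℤ → Prop) {κ B C : ℝ} (hκ : 0 ≤ κ) (hκ2 : κ < 1 / 2) (hB : 0 ≤ B)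
    (hC : ∀ X : ℕ, 1 ≤ X → ({t : ℤ | |t| ≤ X ∧ ¬ Q X t}.ncard : ℝ) ≤
      C * (X : ℝ) ^ ((1 - 2 * κ) / (2 * (B + 1))))
    {f : ℕ → ℕ} {T : ℕ} (hf : FewTimes f T) (U : ℕ) : ∃ N₀ : ℕ, ∀ N : ℕ, N₀ ≤ N →
      ({m : ℕ | 1 ≤ m ∧ m ≤ N ∧ ¬ ∀ w : ℕ, 1 ≤ w → (w : ℝ) ≤ (N : ℝ) ^ B →
          Carries f (Real.exp √(Real.log N)) m w →
          ∀ t a h : ℤ, t = a * w + h → 1 ≤ a → (a : ℝ) ≤ (N : ℝ) ^ κ → |(h : ℝ)| ≤ (N : ℝ) ^ κ →
            Q ⌊(N : ℝ) ^ (B + 1)⌋₊ t}.ncard : ℝ) ≤ N / Real.log N ^ U := by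
  classical
  have hB1 : 0 < B + 1 := by linarith
  have hC0 : 0 ≤ C := by
    have := hC 1 le_rfl
    simp only [Nat.cast_one, Real.one_rpow, mul_one] at this
    exact le_trans (Nat.cast_nonneg _) this
  obtain ⟨N₁, hN₁⟩ := scale hf (θ := κ + 1 / 2) (B := B) (by linarith) hB (3 * C) U
  obtain ⟨N₂, hN₂⟩ := exists_nat_ge ((2 : ℝ) ^ (1 / (1 - κ)))
  refine ⟨max (max N₁ N₂) 2, fun N hN => ?_⟩
  have hNN₁ : N₁ ≤ N := (le_max_left _ _).trans ((le_max_left _ _).trans hN)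
  have hNN₂ : N₂ ≤ N := (le_max_right _ _).trans ((le_max_left _ _).trans hN)
  have hN2 : 2 ≤ N := (le_max_right _ _).trans hN
  have hNr : (2 : ℝ) ≤ N := by exact_mod_cast hN2
  have hN0 : (0 : ℝ) < N := by linarith
  have hN1 : (1 : ℝ) ≤ N := by linarith
  have hbig : 2 ≤ (N : ℝ) ^ (1 - κ) := by
    have h1 : (2 : ℝ) ^ (1 / (1 - κ)) ≤ N := hN₂.trans (by exact_mod_cast hNN₂)
    have h2 := Real.rpow_le_rpow (by positivity) h1 (by linarith : (0 : ℝ) ≤ 1 - κ)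
    rw [← Real.rpow_mul (by norm_num), one_div, inv_mul_cancel₀ (by linarith), Real.rpow_one] at h2
    exact h2
  set H : ℕ := ⌊(N : ℝ) ^ (B + 1)⌋₊ with hH
  have hHle : (H : ℝ) ≤ (N : ℝ) ^ (B + 1) := Nat.floor_le (by positivity)
  have hH1 : 1 ≤ H := by
    apply Nat.le_floor
    rw [Nat.cast_one]
    exact Real.one_le_rpow hN1 hB1.le
  have hcount : (((Icc 1 ⌊(N : ℝ) ^ B⌋₊).filter (fun w => w ∈ Bad (Q H) κ N H)).card : ℝ) ≤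
      3 * C * (N : ℝ) ^ (κ + 1 / 2) := by
    have hx : ({t : ℤ | |t| ≤ H ∧ ¬ Q H t}.ncard : ℝ) ≤ C * (N : ℝ) ^ (1 / 2 - κ) := by
      refine (hC H hH1).trans (mul_le_mul_of_nonneg_left ?_ hC0)
      have h1 : (H : ℝ) ^ ((1 - 2 * κ) / (2 * (B + 1))) ≤
          ((N : ℝ) ^ (B + 1)) ^ ((1 - 2 * κ) / (2 * (B + 1))) :=
        Real.rpow_le_rpow (by positivity) hHle (div_nonneg (by linarith) (by linarith))
      refine h1.trans (le_of_eq ?_)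
      rw [← Real.rpow_mul hN0.le]
      congr 1
      field_simp
    refine (bad_count (Q H) hκ (by omega) hx _).trans (le_of_eq ?_)
    have h2 : (N : ℝ) ^ (κ + 1 / 2) = (N : ℝ) ^ (1 / 2 - κ) * (N : ℝ) ^ (2 * κ) := by
      rw [← Real.rpow_add hN0]
      congr 1
      ring
    rw [h2]
    ring
  refine le_trans ?_ (hN₁ N hNN₁ (Bad (Q H) κ N H) hcount)
  rw [← Set.ncard_coe_finset]
  have hsub : {m : ℕ | 1 ≤ m ∧ m ≤ N ∧ ¬ ∀ w : ℕ, 1 ≤ w → (w : ℝ) ≤ (N : ℝ) ^ B →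
          Carries f (Real.exp √(Real.log N)) m w →
          ∀ t a h : ℤ, t = a * w + h → 1 ≤ a → (a : ℝ) ≤ (N : ℝ) ^ κ → |(h : ℝ)| ≤ (N : ℝ) ^ κ →
            Q H t} ⊆
      (((Icc 1 N).filter (fun m => ∃ w ∈ Bad (Q H) κ N H, 1 ≤ w ∧ (w : ℝ) ≤ (N : ℝ) ^ B ∧
        Carries f (Real.exp √(Real.log N)) m w) : Finset ℕ) : Set ℕ) := by
    rintro m ⟨hm1, hm2, hm3⟩
    push Not at hm3
    obtain ⟨w, hw1, hw2, hw3, t, a, h, hnw, ha1, ha2, hh, hle⟩ := hm3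
    rw [coe_filter, Set.mem_ofPred_eq, mem_Icc]
    refine ⟨⟨hm1, hm2⟩, w, ⟨t, a, h, ⟨?_, hle⟩, ha1, ha2, hh, hnw⟩, hw1, hw2, hw3⟩
    have h1 : (t : ℝ) = a * w + h := by exact_mod_cast hnw
    have h2 : (0 : ℝ) ≤ w := Nat.cast_nonneg _
    have ha0 : (0 : ℝ) ≤ a := by exact_mod_cast (by omega : (0 : ℤ) ≤ a)
    have h3 : (a : ℝ) * w ≤ (N : ℝ) ^ κ * (N : ℝ) ^ B :=
      mul_le_mul ha2 hw2 h2 (by positivity)
    have h5 : (1 : ℝ) ≤ (N : ℝ) ^ B := Real.one_le_rpow hN1 hB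
    have h6 : (0 : ℝ) ≤ (N : ℝ) ^ κ := by positivity
    have h7 : (N : ℝ) ^ (B + 1) = (N : ℝ) ^ κ * (N : ℝ) ^ B * (N : ℝ) ^ (1 - κ) := by
      rw [← Real.rpow_add hN0, ← Real.rpow_add hN0]
      congr 1
      ring
    have h8 : (N : ℝ) ^ κ * (N : ℝ) ^ B * 2 ≤ (N : ℝ) ^ κ * (N : ℝ) ^ B * (N : ℝ) ^ (1 - κ) :=
      mul_le_mul_of_nonneg_left hbig (by positivity)
    have h9 : (N : ℝ) ^ κ ≤ (N : ℝ) ^ κ * (N : ℝ) ^ B := le_mul_of_one_le_right h6 h5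
    have h10 : |(t : ℝ)| ≤ (N : ℝ) ^ (B + 1) := by
      rw [h1, h7]
      refine (abs_add_le _ _).trans ?_
      rw [abs_of_nonneg (mul_nonneg ha0 h2)]
      linarith
    have h11 : ((t.natAbs : ℕ) : ℝ) ≤ (N : ℝ) ^ (B + 1) := by
      rw [Nat.cast_natAbs, Int.cast_abs]
      exact h10
    have h12 := Nat.le_floor h11
    rw [← hH] at h12
    have h13 : (t.natAbs : ℤ) ≤ H := by exact_mod_cast h12
    rw [Int.natCast_natAbs] at h13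
    exact h13
  exact_mod_cast Set.ncard_le_ncard hsub (Finset.finite_toSet _)

end Pool.Agent.N628.CMI
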